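import Pool.Agent.U189.LV.Extract

/-!
# Lower bounds for the largest eigenvalue of an integral matrix
-/

set_option autoImplicit false

open Finset Polynomial Module NumberField

namespace Pool.Agent.U189.LV

open Pool.Agent.H225R3.Marg

/-- `log (2 d) ≤ d log 2` -/
theorem log_two_mul_le (d : ℕ) (hd : 1 ≤ d) :
    Real.log (2 * (d : ℝ)) ≤ d * Real.log 2 := by
  have h1 : 2 * d ≤ 2 ^ d := by
    obtain ⟨e, rfl⟩ : ∃ e, d = e + 1 := ⟨d - 1, by omega⟩
    have := Nat.lt_two_pow_self (n := e)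
    rw [pow_succ]
    omega
  have hdR : (1 : ℝ) ≤ d := by exact_mod_cast hd
  rw [← Real.log_pow]
  exact Real.log_le_log (by linarith) (by exact_mod_cast h1)

/-- **The choice of the number of powers.** -/
theorem lower (d : ℕ) (hd : 1 ≤ d) (Λ c : ℝ) (hΛ : Real.log 2 ≤ Λ)
    (h : ∀ K : ℕ, 0 < K → K * Λ ≤ d * Real.log (K + 1) + (K : ℝ) ^ 2 * c) :
    min Λ (Λ ^ 2 / (d * Real.log (2 * d))) ≤ 18 * c := by
  have hlog2 : 0 < Real.log 2 := Real.log_pos (by norm_num)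
  have hΛ0 : 0 < Λ := hlog2.trans_le hΛ
  have hdR : (1 : ℝ) ≤ d := by exact_mod_cast hd
  have hlogd : 0 < Real.log (2 * (d : ℝ)) := Real.log_pos (by linarith)
  set D : ℝ := d * Real.log (2 * d) with hD
  have hD0 : 0 < D := by positivity
  set X : ℝ := D / Λ with hX
  have hX0 : 0 < X := by positivity
  have hXΛ : X * Λ = D := div_mul_cancel₀ _ hΛ0.ne'
  set K : ℕ := ⌈8 * X⌉₊ with hK
  have hK1 : 8 * X ≤ K := Nat.le_ceil _
  have hK2 : (K : ℝ) < 8 * X + 1 := Nat.ceil_lt_add_one (by positivity)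
  have hKR : (0 : ℝ) < K := by linarith
  have hK0 : 0 < K := by exact_mod_cast hKR
  have hKΛ : 8 * D ≤ K * Λ := by
    have := mul_le_mul_of_nonneg_right hK1 hΛ0.le
    nlinarith
  have hXd : X ≤ (d : ℝ) * d := by
    rw [hX, div_le_iff₀ hΛ0]
    have h1 := log_two_mul_le d hd
    have h2 : D ≤ d * (d * Real.log 2) := mul_le_mul_of_nonneg_left h1 (by positivity)
    have h3 : (d : ℝ) * (d * Real.log 2) ≤ d * d * Λ := by
      rw [← mul_assoc]
      exact mul_le_mul_of_nonneg_left hΛ (by positivity)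
    linarith
  have hlogK : Real.log ((K : ℝ) + 1) ≤ 4 * Real.log (2 * d) := by
    have h1 : (4 : ℝ) * Real.log (2 * d) = Real.log ((2 * (d : ℝ)) ^ 4) := by
      rw [Real.log_pow]; norm_num
    rw [h1]
    refine Real.log_le_log (by positivity) ?_
    have h2 : (1 : ℝ) ≤ (d : ℝ) * d := by nlinarith
    nlinarith
  have hdK : d * Real.log ((K : ℝ) + 1) ≤ 4 * D := by
    have := mul_le_mul_of_nonneg_left hlogK (by positivity : (0 : ℝ) ≤ d)
    rw [hD]
    linarith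
  have h1 := h K hK0
  have h2 : K * Λ ≤ K * (2 * K * c) := by nlinarith
  have h3 : Λ ≤ 2 * K * c := le_of_mul_le_mul_left h2 hKR
  have hc : 0 < c := by
    by_contra hc
    push Not at hc
    nlinarith
  rcases le_total X 1 with h4 | h4
  · refine (min_le_left _ _).trans ?_
    nlinarith
  · refine (min_le_right _ _).trans ?_
    rw [div_le_iff₀ hD0]
    have h5 : Λ ≤ 18 * X * c := by nlinarith
    calc Λ ^ 2 = Λ * Λ := by ring
      _ ≤ (18 * X * c) * Λ := mul_le_mul_of_nonneg_right h5 hΛ0.le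
      _ = 18 * c * (X * Λ) := by ring
      _ = 18 * c * D := by rw [hXΛ]

theorem coe_pow' {L : Type} [Field L] (y : 𝓞 L) (e : ℕ) : ((y ^ e : 𝓞 L) : L) = (y : L) ^ e :=
  (algebraMap (𝓞 L) L).map_pow y e

/-- the largest conjugate -/
theorem exists_max {k L : Type} [Field k] [NumberField k] [Field L] [NumberField L] [Algebra k L]
    (S : Finset (k →+* ℂ)) (y : 𝓞 L) (hy0 : y ≠ 0) (hroot : ∀ m : ℕ, 0 < m → y ^ m ≠ 1)
    (hout : ∀ τ : L →+* ℂ, τ.comp (algebraMap k L) ∉ S → ‖τ (y : L)‖ ≤ 1) :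
    ∃ τ0 : L →+* ℂ, τ0.comp (algebraMap k L) ∈ S ∧ 1 < ‖τ0 (y : L)‖ ∧
      ∀ e : ℕ, ∑ τ : L →+* ℂ, Real.log (max 1 ‖τ ((y ^ e : 𝓞 L) : L)‖) ≤
        finrank k L * (e * S.card * Real.log ‖τ0 (y : L)‖) := by
  classical
  have hyL : (y : L) ≠ 0 := fun h => hy0 (RingOfIntegers.coe_eq_zero_iff.1 h)
  obtain ⟨τ1, hτ1⟩ : ∃ τ1 : L →+* ℂ, 1 < ‖τ1 (y : L)‖ := by
    by_contra hcon
    push Not at hcon
    obtain ⟨N, hN, h⟩ := NumberField.Embeddings.pow_eq_one_of_norm_le_one L ℂ hyL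
      (RingOfIntegers.isIntegral_coe y) hcon
    apply hroot N hN
    apply RingOfIntegers.ext
    rw [coe_pow', h]
    rfl
  obtain ⟨τ0, -, hmax⟩ := Finset.exists_max_image (univ : Finset (L →+* ℂ))
    (fun τ => ‖τ (y : L)‖) ⟨τ1, Finset.mem_univ _⟩
  have hτ0 : 1 < ‖τ0 (y : L)‖ := hτ1.trans_le (hmax τ1 (Finset.mem_univ _))
  have hmem : τ0.comp (algebraMap k L) ∈ S := by
    by_contra h
    exact absurd hτ0 (not_lt.mpr (hout τ0 h))
  refine ⟨τ0, hmem, hτ0, fun e => ?_⟩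
  set r := Real.log ‖τ0 (y : L)‖ with hr
  have hr0 : 0 < r := Real.log_pos hτ0
  have hb : ∀ τ : L →+* ℂ, Real.log (max 1 ‖τ ((y ^ e : 𝓞 L) : L)‖) ≤
      if τ.comp (algebraMap k L) ∈ S then e * r else 0 := by
    intro τ
    have h1 : ‖τ ((y ^ e : 𝓞 L) : L)‖ = ‖τ (y : L)‖ ^ e := by
      rw [coe_pow', map_pow, norm_pow]
    rw [h1]
    split_ifs with hS
    · have h2 : ‖τ (y : L)‖ ^ e ≤ ‖τ0 (y : L)‖ ^ e :=
        pow_le_pow_left₀ (norm_nonneg _) (hmax τ (Finset.mem_univ _)) _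
      have h3 : max 1 (‖τ (y : L)‖ ^ e) ≤ ‖τ0 (y : L)‖ ^ e := max_le (one_le_pow₀ hτ0.le) h2
      calc Real.log (max 1 (‖τ (y : L)‖ ^ e)) ≤ Real.log (‖τ0 (y : L)‖ ^ e) :=
            Real.log_le_log (lt_of_lt_of_le one_pos (le_max_left _ _)) h3
        _ = e * r := by rw [Real.log_pow]
    · rw [max_eq_left (pow_le_one₀ (norm_nonneg _) (hout τ hS)), Real.log_one]
  calc ∑ τ : L →+* ℂ, Real.log (max 1 ‖τ ((y ^ e : 𝓞 L) : L)‖)
      ≤ ∑ τ : L →+* ℂ, if τ.comp (algebraMap k L) ∈ S then e * r else 0 :=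
        sum_le_sum fun τ _ => hb τ
    _ = (S.card * finrank k L : ℕ) * (e * r) := by
        rw [← sum_filter, sum_const, nsmul_eq_mul, card_over]
    _ = finrank k L * (e * S.card * r) := by
        push_cast
        ring

/-- **Congruence levels.** The same eigenvalue works for all exponents and all ideals. -/
theorem level {k : Type} [Field k] [NumberField k] {n : ℕ} (S : Finset (k →+* ℂ))
    (A : Matrix (Fin n) (Fin n) (𝓞 k)) (hA : IsUnit A)
    (hout : ∀ σ : k →+* ℂ, σ ∉ S → ∀ l : ℂ, ((emb σ).mapMatrix A).charpoly.IsRoot l → ‖l‖ ≤ 1)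
    (hnil : ∀ N : ℕ, 0 < N → ¬ IsNilpotent (A ^ N - 1)) :
    ∃ σ ∈ S, ∃ l : ℂ, ((emb σ).mapMatrix A).charpoly.IsRoot l ∧ 1 < ‖l‖ ∧
      ∀ (I : Ideal (𝓞 k)) (e : ℕ), 0 < e → (∀ i j, (A ^ e - 1) i j ∈ I) →
        min (Real.log (Ideal.absNorm I)) (Real.log (Ideal.absNorm I) ^ 2 /
          (finrank ℚ k * Real.log (2 * finrank ℚ k))) ≤ 18 * (e * S.card * Real.log ‖l‖) := by
  obtain ⟨L, _, _, _, y, hyu, hroot, hdeg, hcong, hτ⟩ := extract A hA hnil
  obtain ⟨τ0, hmem, hτ0, hsum⟩ := exists_max S y hyu.ne_zero hroot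
    (fun τ hτ' => hout _ hτ' _ (hτ τ))
  refine ⟨_, hmem, _, hτ τ0, hτ0, fun I e he hI => ?_⟩
  have hr0 : 0 < Real.log ‖τ0 (y : L)‖ := Real.log_pos hτ0
  have hnn : 0 ≤ 18 * (e * S.card * Real.log ‖τ0 (y : L)‖) := by positivity
  by_cases hN : Ideal.absNorm I ≤ 1
  · have h1 : Real.log (Ideal.absNorm I) = 0 := by
      interval_cases h : Ideal.absNorm I <;> simp
    rw [h1]
    exact (min_le_left _ _).trans hnn
  · push Not at hN
    have hd1 : 1 ≤ finrank ℚ k := finrank_pos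
    refine lower _ hd1 _ _ (Real.log_le_log (by norm_num) (by exact_mod_cast hN)) fun K hK => ?_
    have hm : 0 < finrank k L := finrank_pos
    have hmR : (0 : ℝ) < finrank k L := by exact_mod_cast hm
    have h1 := basic (y ^ e) (pow_ne_zero _ hyu.ne_zero)
      (fun m hm => by rw [← pow_mul]; exact hroot _ (Nat.mul_pos he hm))
      (I.map (algebraMap (𝓞 k) (𝓞 L))) (hcong I e hI) K hK
    have h4 : Ideal.absNorm (I.map (algebraMap (𝓞 k) (𝓞 L))) =
        Ideal.absNorm I ^ finrank k L := by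
      rw [Ideal.absNorm_algebraMap]
      congr 1
      exact (Algebra.IsAlgebraic.finrank_of_isFractionRing (𝓞 k) k (𝓞 L) L).symm
    rw [h4, ← Module.finrank_mul_finrank ℚ k L] at h1
    push_cast at h1
    rw [Real.log_pow] at h1
    have h2 := hsum e
    have h3 : (K : ℝ) ^ 2 * ∑ τ : L →+* ℂ, Real.log (max 1 ‖τ ((y ^ e : 𝓞 L) : L)‖) ≤
        (K : ℝ) ^ 2 * (finrank k L * (e * S.card * Real.log ‖τ0 (y : L)‖)) :=
      mul_le_mul_of_nonneg_left h2 (by positivity)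
    have h5 : (finrank k L : ℝ) * (K * Real.log (Ideal.absNorm I)) ≤ finrank k L *
        (finrank ℚ k * Real.log (K + 1) +
          (K : ℝ) ^ 2 * (e * S.card * Real.log ‖τ0 (y : L)‖)) := by
      have h6 : (K : ℝ) * (finrank k L * Real.log (Ideal.absNorm I)) ≤
          finrank ℚ k * finrank k L * Real.log (K + 1) +
            (K : ℝ) ^ 2 * (finrank k L * (e * S.card * Real.log ‖τ0 (y : L)‖)) :=
        h1.trans (by simpa using h3)
      linarith
    exact le_of_mul_le_mul_left h5 hmR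

end Pool.Agent.U189.LV
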