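import Pool.Agent.U189.LV.Main

/-!
# Many primes of the same norm
-/

set_option autoImplicit false

open Finset Polynomial Module NumberField

namespace Pool.Agent.U189.LV

open Pool.Agent.H225R3.Marg

/-- a prime above -/
theorem exists_above {k L : Type} [Field k] [NumberField k] [Field L] [NumberField L]
    [Algebra k L] (I : Ideal (𝓞 k)) (h1 : I.IsPrime) (h2 : I ≠ ⊥) :
    ∃ (Q : Ideal (𝓞 L)) (f : ℕ), Q.IsMaximal ∧ Q ≠ ⊥ ∧ Q.comap (algebraMap (𝓞 k) (𝓞 L)) = I ∧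
      1 ≤ f ∧ f ≤ finrank k L ∧ Ideal.absNorm Q = Ideal.absNorm I ^ f := by
  have hm : I.IsMaximal := h1.isMaximal h2
  obtain ⟨Q, hQ, hQI⟩ := Ideal.exists_maximal_ideal_liesOver_of_isIntegral (S := 𝓞 L) I
  have hcomap : Q.comap (algebraMap (𝓞 k) (𝓞 L)) = I := hQI.over.symm
  have hQ0 : Q ≠ ⊥ := Ideal.ne_bot_of_liesOver_of_ne_bot h2 Q
  have hf : I.absNorm ^ Q.inertiaDeg (𝓞 k) = Q.absNorm := Ideal.absNorm_pow_inertiaDeg I Q
  have hle : I.map (algebraMap (𝓞 k) (𝓞 L)) ≤ Q := Ideal.map_le_iff_le_comap.mpr hcomap.ge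
  have h3 : Ideal.absNorm Q ∣ Ideal.absNorm (I.map (algebraMap (𝓞 k) (𝓞 L))) :=
    Ideal.absNorm_dvd_absNorm_of_le hle
  have h4 : Ideal.absNorm (I.map (algebraMap (𝓞 k) (𝓞 L))) =
      Ideal.absNorm I ^ finrank k L := by
    rw [Ideal.absNorm_algebraMap]
    congr 1
    exact (Algebra.IsAlgebraic.finrank_of_isFractionRing (𝓞 k) k (𝓞 L) L).symm
  have hne0 : Ideal.absNorm I ≠ 0 := fun h => h2 (Ideal.absNorm_eq_zero_iff.mp h)
  have hne1 : Ideal.absNorm I ≠ 1 := fun h => h1.ne_top (Ideal.absNorm_eq_one_iff.mp h)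
  have h5 : 1 < Ideal.absNorm I := by omega
  refine ⟨Q, Q.inertiaDeg (𝓞 k), hQ, hQ0, hcomap, Ideal.inertiaDeg_pos Q (𝓞 k), ?_, hf.symm⟩
  rw [h4, ← hf] at h3
  exact (Nat.pow_dvd_pow_iff_le_right h5).mp h3

/-- a unit modulo a maximal ideal -/
theorem unit_pow_mem {R : Type*} [CommRing R] (Q : Ideal R) [Q.IsMaximal] [Finite (R ⧸ Q)]
    (y : R) (hy : IsUnit y) (N : ℕ) (hN : Nat.card (R ⧸ Q) = N) : y ^ (N - 1) - 1 ∈ Q := by
  letI : Field (R ⧸ Q) := Ideal.Quotient.field Q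
  letI : Fintype (R ⧸ Q) := Fintype.ofFinite _
  rw [← Ideal.Quotient.eq_zero_iff_mem, map_sub, map_pow, map_one, sub_eq_zero, ← hN,
    ← Fintype.card_eq_nat_card]
  exact FiniteField.pow_card_sub_one_eq_one _ (hy.map (Ideal.Quotient.mk Q)).ne_zero

/-- **Many primes of the same norm.** -/
theorem primes {k : Type} [Field k] [NumberField k] {n : ℕ} (S : Finset (k →+* ℂ))
    (A : Matrix (Fin n) (Fin n) (𝓞 k)) (hA : IsUnit A)
    (hout : ∀ σ : k →+* ℂ, σ ∉ S → ∀ l : ℂ, ((emb σ).mapMatrix A).charpoly.IsRoot l → ‖l‖ ≤ 1)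
    (hnil : ∀ N : ℕ, 0 < N → ¬ IsNilpotent (A ^ N - 1)) :
    ∃ σ ∈ S, ∃ l : ℂ, ((emb σ).mapMatrix A).charpoly.IsRoot l ∧ 1 < ‖l‖ ∧
      ∀ (q : ℕ) (P : Finset (Ideal (𝓞 k))), P.Nonempty →
        (∀ I ∈ P, I.IsPrime ∧ I ≠ ⊥ ∧ Ideal.absNorm I = q) →
        min (P.card * Real.log q / n ^ 2) ((P.card * Real.log q / n ^ 2) ^ 2 /
          (finrank ℚ k * Real.log (2 * n * finrank ℚ k))) ≤
          18 * (((q : ℝ) ^ n - 1) * S.card * Real.log ‖l‖) := by
  classical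
  obtain ⟨L, _, _, _, y, hyu, hroot, hdeg, -, hτ⟩ := extract A hA hnil
  obtain ⟨τ0, hmem, hτ0, hsum⟩ := exists_max S y hyu.ne_zero hroot
    (fun τ hτ' => hout _ hτ' _ (hτ τ))
  refine ⟨_, hmem, _, hτ τ0, hτ0, fun q P hPne hP => ?_⟩
  set r := Real.log ‖τ0 (y : L)‖ with hr
  have hr0 : 0 < r := Real.log_pos hτ0
  set m := finrank k L with hm
  have hm1 : 1 ≤ m := finrank_pos
  have hn1 : 1 ≤ n := hm1.trans hdeg
  have hmR : (1 : ℝ) ≤ m := by exact_mod_cast hm1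
  have hnR : (1 : ℝ) ≤ n := by exact_mod_cast hn1
  have hmn : (m : ℝ) ≤ n := by exact_mod_cast hdeg
  set d := finrank ℚ k with hd
  have hd1 : 1 ≤ d := finrank_pos
  have hdR : (1 : ℝ) ≤ d := by exact_mod_cast hd1
  have hq2 : 2 ≤ q := by
    obtain ⟨I, hI⟩ := hPne
    obtain ⟨h1, h2, h3⟩ := hP I hI
    rw [← h3]
    have hne0 : Ideal.absNorm I ≠ 0 := fun h => h2 (Ideal.absNorm_eq_zero_iff.mp h)
    have hne1 : Ideal.absNorm I ≠ 1 := fun h => h1.ne_top (Ideal.absNorm_eq_one_iff.mp h)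
    omega
  have hlogq : 0 < Real.log q := Real.log_pos (by exact_mod_cast hq2)
  choose! Q f hQm hQ0 hQc hf1 hf2 hQN using
    fun (I : Ideal (𝓞 k)) (h : I.IsPrime) (h' : I ≠ ⊥) => exists_above (L := L) I h h'
  have hcardP : (0 : ℝ) < P.card := by exact_mod_cast hPne.card_pos
  -- the residue degree
  obtain ⟨f0, hf0, hf0'⟩ := Finset.exists_le_card_fiber_of_nsmul_le_card_of_maps_to
    (s := P) (t := Finset.Icc 1 n) (f := f) (b := (P.card : ℝ) / n)
    (fun I hI => by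
      obtain ⟨h1, h2, -⟩ := hP I hI
      exact Finset.mem_Icc.mpr ⟨hf1 I h1 h2, (hf2 I h1 h2).trans hdeg⟩)
    ⟨1, Finset.mem_Icc.mpr ⟨le_rfl, hn1⟩⟩
    (by
      rw [Nat.card_Icc, Nat.add_sub_cancel, nsmul_eq_mul]
      rw [mul_div_cancel₀ _ (by positivity)])
  rw [Finset.mem_Icc] at hf0
  set P' := P.filter fun I => f I = f0 with hP'
  have hP'pos : (0 : ℝ) < P'.card := lt_of_lt_of_le (by positivity) hf0'
  have hP'1 : 1 ≤ P'.card := by exact_mod_cast hP'pos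
  have hP'mem : ∀ I ∈ P', I.IsPrime ∧ I ≠ ⊥ ∧ Ideal.absNorm I = q ∧ f I = f0 := by
    intro I hI
    rw [hP', Finset.mem_filter] at hI
    obtain ⟨h1, h2, h3⟩ := hP I hI.1
    exact ⟨h1, h2, h3, hI.2⟩
  set T := q ^ f0 - 1 with hT
  have hqf : 2 ≤ q ^ f0 := by
    calc 2 ≤ q := hq2
      _ = q ^ 1 := (pow_one q).symm
      _ ≤ q ^ f0 := Nat.pow_le_pow_right (by omega) hf0.1
  have hT0 : 0 < T := by omega
  have hTle : (T : ℝ) ≤ (q : ℝ) ^ n - 1 := by
    have h1 : q ^ f0 ≤ q ^ n := Nat.pow_le_pow_right (by omega) hf0.2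
    have h2 : T + 1 ≤ q ^ n := by omega
    have h3 : (T : ℝ) + 1 ≤ (q : ℝ) ^ n := by exact_mod_cast h2
    linarith
  -- the ideal
  have hmemJ : y ^ T - 1 ∈ ∏ I ∈ P', Q I := by
    rw [← Ideal.span_singleton_le_iff_mem, ← Ideal.dvd_iff_le]
    refine Finset.prod_dvd_of_coprime ?_ ?_
    · intro I hI J hJ hne
      obtain ⟨hI1, hI2, _⟩ := hP'mem I hI
      obtain ⟨hJ1, hJ2, _⟩ := hP'mem J hJ
      have h1 := hQm I hI1 hI2
      have h2 := hQm J hJ1 hJ2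
      refine Ideal.isCoprime_iff_sup_eq.mpr (h1.coprime_of_ne h2 fun h => hne ?_)
      rw [← hQc I hI1 hI2, ← hQc J hJ1 hJ2, h]
    · intro I hI
      obtain ⟨hI1, hI2, hI3, hI4⟩ := hP'mem I hI
      rw [Ideal.dvd_iff_le, Ideal.span_singleton_le_iff_mem]
      have : Finite (𝓞 L ⧸ Q I) := Ideal.finiteQuotientOfFreeOfNeBot _ (hQ0 I hI1 hI2)
      have : (Q I).IsMaximal := hQm I hI1 hI2
      refine unit_pow_mem (Q I) y hyu _ ?_
      have h1 := hQN I hI1 hI2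
      rw [Ideal.absNorm_apply, Submodule.cardQuot_apply, hI3, hI4] at h1
      exact h1
  have hnormJ : Ideal.absNorm (∏ I ∈ P', Q I) = (q ^ f0) ^ P'.card := by
    rw [map_prod, Finset.prod_congr rfl fun I hI => ?_, Finset.prod_const]
    obtain ⟨hI1, hI2, hI3, hI4⟩ := hP'mem I hI
    rw [hQN I hI1 hI2, hI3, hI4]
  set Λ : ℝ := Real.log (Ideal.absNorm (∏ I ∈ P', Q I) : ℕ) with hΛ
  have hΛeq : Λ = P'.card * (f0 * Real.log q) := by
    rw [hΛ, hnormJ]
    push_cast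
    rw [Real.log_pow, Real.log_pow]
  have hf0R : (1 : ℝ) ≤ f0 := by exact_mod_cast hf0.1
  have hΛlow : P.card / n * Real.log q ≤ Λ := by
    rw [hΛeq]
    refine mul_le_mul hf0' ?_ hlogq.le (by positivity)
    nlinarith
  have hΛ2 : Real.log 2 ≤ Λ := by
    rw [hΛ, hnormJ]
    refine Real.log_le_log (by norm_num) ?_
    have h1 : 2 ≤ (q ^ f0) ^ P'.card := by
      calc 2 ≤ q ^ f0 := hqf
        _ = (q ^ f0) ^ 1 := (pow_one _).symm
        _ ≤ _ := Nat.pow_le_pow_right (by omega) hP'1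
    exact_mod_cast h1
  have hD1 : 1 ≤ finrank ℚ L := finrank_pos
  have hDm : (finrank ℚ L : ℝ) = d * m := by
    rw [← Module.finrank_mul_finrank ℚ k L]
    push_cast
    rfl
  have hlow := lower (finrank ℚ L) hD1 Λ (m * (T * S.card * r)) hΛ2 (fun K hK => by
    have h1 := basic (y ^ T) (pow_ne_zero _ hyu.ne_zero)
      (fun j hj => by rw [← pow_mul]; exact hroot _ (Nat.mul_pos hT0 hj))
      (∏ I ∈ P', Q I) hmemJ K hK
    have h3 : (K : ℝ) ^ 2 * ∑ τ : L →+* ℂ, Real.log (max 1 ‖τ ((y ^ T : 𝓞 L) : L)‖) ≤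
        (K : ℝ) ^ 2 * (m * (T * S.card * r)) :=
      mul_le_mul_of_nonneg_left (hsum T) (by positivity)
    exact h1.trans (by linarith))
  -- comparison
  set Λ' : ℝ := P.card * Real.log q / n ^ 2 with hΛ'
  have hΛ'0 : 0 < Λ' := by positivity
  have hcomp : m * Λ' ≤ Λ := by
    refine le_trans ?_ hΛlow
    have h1 : P.card / n * Real.log q = n * Λ' := by
      rw [hΛ']
      field_simp
    rw [h1]
    exact mul_le_mul_of_nonneg_right hmn hΛ'0.le
  have hlogn : 0 < Real.log (2 * (n : ℝ) * d) := Real.log_pos (by nlinarith)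
  have hlogD : Real.log (2 * (finrank ℚ L : ℝ)) ≤ Real.log (2 * n * d) := by
    refine Real.log_le_log (by rw [hDm]; positivity) ?_
    rw [hDm]
    nlinarith
  have hlogD0 : 0 < Real.log (2 * (finrank ℚ L : ℝ)) := Real.log_pos (by rw [hDm]; nlinarith)
  have hstep : m * min Λ' (Λ' ^ 2 / (d * Real.log (2 * n * d))) ≤
      min Λ (Λ ^ 2 / (finrank ℚ L * Real.log (2 * finrank ℚ L))) := by
    refine le_min ?_ ?_
    · exact (mul_le_mul_of_nonneg_left (min_le_left _ _) (by positivity)).trans hcomp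
    · refine (mul_le_mul_of_nonneg_left (min_le_right _ _) (by positivity)).trans ?_
      rw [le_div_iff₀ (mul_pos (by rw [hDm]; positivity) hlogD0), hDm]
      have h1 : (m * Λ') ^ 2 ≤ Λ ^ 2 := pow_le_pow_left₀ (by positivity) hcomp 2
      calc (m : ℝ) * (Λ' ^ 2 / (d * Real.log (2 * n * d))) *
            (d * m * Real.log (2 * (d * m)))
          = (m * Λ') ^ 2 * (Real.log (2 * (d * m)) / Real.log (2 * n * d)) := by
            field_simp
        _ ≤ (m * Λ') ^ 2 * 1 := by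
            refine mul_le_mul_of_nonneg_left ?_ (by positivity)
            rw [div_le_one hlogn, ← hDm]
            exact hlogD
        _ ≤ Λ ^ 2 := by rw [mul_one]; exact h1
  have h1 : m * min Λ' (Λ' ^ 2 / (d * Real.log (2 * n * d))) ≤ m * (18 * (T * S.card * r)) := by
    refine (hstep.trans hlow).trans (le_of_eq ?_)
    ring
  refine (le_of_mul_le_mul_left h1 (by linarith)).trans ?_
  have h2 : (T : ℝ) * S.card * r ≤ ((q : ℝ) ^ n - 1) * S.card * r :=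
    mul_le_mul_of_nonneg_right (mul_le_mul_of_nonneg_right hTle (by positivity)) hr0.le
  linarith

end Pool.Agent.U189.LV
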