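import Pool.Agent.H225R3.Marg10
import Pool.Agent.Q262.RL.En
import Pool.Agent.Q262.RL.Lin

/-!
# The energy of the powers of an algebraic integer which is congruent to `1`
-/

set_option autoImplicit false

open Finset Polynomial Module NumberField

namespace Pool.Agent.U189.LV

open Pool.Agent.H225R3.Marg

/-- **The basic inequality.** -/
theorem basic {L : Type} [Field L] [NumberField L] (y : 𝓞 L) (hy0 : y ≠ 0)
    (hroot : ∀ m : ℕ, 0 < m → y ^ m ≠ 1) (J : Ideal (𝓞 L)) (hJ : y - 1 ∈ J) (K : ℕ) (hK : 0 < K) :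
    K * Real.log (Ideal.absNorm J) ≤ finrank ℚ L * Real.log (K + 1) +
      (K : ℝ) ^ 2 * ∑ τ : L →+* ℂ, Real.log (max 1 ‖τ (y : L)‖) := by
  classical
  set D := finrank ℚ L with hD
  set H := ∑ τ : L →+* ℂ, Real.log (max 1 ‖τ (y : L)‖) with hH
  have hKR : (0 : ℝ) < K := by exact_mod_cast hK
  -- differences of powers
  have hne : ∀ i j : Fin (K + 1), i ≠ j → y ^ (i : ℕ) - y ^ (j : ℕ) ≠ 0 := by
    have key : ∀ i j : ℕ, i < j → y ^ i ≠ y ^ j := by
      intro i j hij h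
      apply hroot (j - i) (by omega)
      have h1 : y ^ i * y ^ (j - i) = y ^ i * 1 := by
        rw [← pow_add, Nat.add_sub_cancel' hij.le, mul_one, h]
      exact mul_left_cancel₀ (pow_ne_zero i hy0) h1
    intro i j hij h
    rw [sub_eq_zero] at h
    have hij' : (i : ℕ) ≠ j := fun h' => hij (Fin.ext h')
    rcases lt_or_gt_of_ne hij' with h1 | h1
    · exact key _ _ h1 h
    · exact key _ _ h1 h.symm
  have hmem : ∀ i : ℕ, y ^ i - 1 ∈ J := fun i => by
    have h1 : y - 1 ∣ y ^ i - 1 := by simpa using sub_dvd_pow_sub_pow y 1 i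
    exact J.mem_of_dvd h1 hJ
  have hmem' : ∀ i j : ℕ, y ^ i - y ^ j ∈ J := fun i j => by
    have := J.sub_mem (hmem i) (hmem j)
    simpa using this
  have hlow : ∀ i j : Fin (K + 1), i ≠ j → Real.log (Ideal.absNorm J) ≤
      ∑ τ : L →+* ℂ, Real.log ‖(τ (y : L)) ^ (i : ℕ) - (τ (y : L)) ^ (j : ℕ)‖ := by
    intro i j hij
    set w := y ^ (i : ℕ) - y ^ (j : ℕ) with hw
    have hw0 : w ≠ 0 := hne i j hij
    have h1 : Ideal.absNorm J ∣ (Algebra.norm ℤ w).natAbs := by
      rw [← Ideal.absNorm_span_singleton]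
      exact Ideal.absNorm_dvd_absNorm_of_le
        ((Ideal.span_singleton_le_iff_mem _).mpr (hmem' i j))
    have h2 : Algebra.norm ℤ w ≠ 0 := Algebra.norm_ne_zero_iff.mpr hw0
    have h3 : 0 < (Algebra.norm ℤ w).natAbs := Int.natAbs_pos.mpr h2
    have h4 := Nat.le_of_dvd h3 h1
    have h5 : 0 < Ideal.absNorm J := Nat.pos_of_dvd_of_pos h1 h3
    have h6 : Real.log (Ideal.absNorm J) ≤ Real.log ((Algebra.norm ℤ w).natAbs : ℝ) :=
      Real.log_le_log (by exact_mod_cast h5) (by exact_mod_cast h4)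
    refine h6.trans (le_of_eq ?_)
    rw [norm_int_eq, Real.log_prod]
    · refine sum_congr rfl fun τ _ => ?_
      congr 2
      have : emb τ w = τ ((w : 𝓞 L) : L) := rfl
      rw [this, hw]
      simp
    · intro τ _
      rw [Ne, norm_eq_zero]
      have : emb τ w = τ ((w : 𝓞 L) : L) := rfl
      rw [this, map_eq_zero]
      exact fun h => hw0 (RingOfIntegers.coe_eq_zero_iff.1 h)
  -- the energy at each embedding
  have hup : ∀ τ : L →+* ℂ, ∑ i : Fin (K + 1), ∑ j : Fin (K + 1),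
      Real.log ‖(τ (y : L)) ^ (i : ℕ) - (τ (y : L)) ^ (j : ℕ)‖ ≤
      (K + 1) * Real.log (K + 1) + (K + 1) * K ^ 2 * Real.log (max 1 ‖τ (y : L)‖) := by
    intro τ
    have hinj : Function.Injective fun i : Fin (K + 1) => (τ (y : L)) ^ (i : ℕ) := by
      intro i j h
      by_contra hij
      apply hne i j hij
      have h1 : τ ((y ^ (i : ℕ) - y ^ (j : ℕ) : 𝓞 L) : L) = 0 := by
        have h' : (τ (y : L)) ^ (i : ℕ) = (τ (y : L)) ^ (j : ℕ) := h
        simp [h']
      rw [map_eq_zero] at h1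
      exact RingOfIntegers.coe_eq_zero_iff.1 h1
    have h1 := Pool.Agent.Q262.RL.energy_fin_le _ hinj
    have h2 : ∑ i : Fin (K + 1), Real.log (max 1 ‖(τ (y : L)) ^ (i : ℕ)‖) =
        (K * (K + 1) / 2 : ℝ) * Real.log (max 1 ‖τ (y : L)‖) := by
      rw [sum_congr rfl fun (i : Fin (K + 1)) _ =>
        Pool.Agent.Q262.RL.log_max_pow (τ (y : L)) (i : ℕ), ← sum_mul]
      congr 1
      rw [Fin.sum_univ_eq_sum_range (fun i => (i : ℝ)) (K + 1)]
      have h3 := Finset.sum_range_id_mul_two (K + 1)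
      have h4 : (∑ i ∈ range (K + 1), (i : ℝ)) * 2 = (K + 1) * K := by
        have : (((∑ i ∈ range (K + 1), i) * 2 : ℕ) : ℝ) = (((K + 1) * (K + 1 - 1) : ℕ) : ℝ) := by
          rw [h3]
        push_cast at this
        simpa using this
      linarith
    rw [h2] at h1
    refine h1.trans (le_of_eq ?_)
    push_cast
    ring
  have hsum : ∑ i : Fin (K + 1), ∑ j : Fin (K + 1), ∑ τ : L →+* ℂ,
      Real.log ‖(τ (y : L)) ^ (i : ℕ) - (τ (y : L)) ^ (j : ℕ)‖ ≤
      D * ((K + 1) * Real.log (K + 1)) + (K + 1) * K ^ 2 * H := by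
    have e1 : ∑ i : Fin (K + 1), ∑ j : Fin (K + 1), ∑ τ : L →+* ℂ,
        Real.log ‖(τ (y : L)) ^ (i : ℕ) - (τ (y : L)) ^ (j : ℕ)‖ =
        ∑ τ : L →+* ℂ, ∑ i : Fin (K + 1), ∑ j : Fin (K + 1),
        Real.log ‖(τ (y : L)) ^ (i : ℕ) - (τ (y : L)) ^ (j : ℕ)‖ := by
      rw [sum_congr rfl fun i _ => sum_comm, sum_comm]
    rw [e1]
    refine (sum_le_sum fun τ _ => hup τ).trans (le_of_eq ?_)
    rw [sum_add_distrib, sum_const, card_univ, NumberField.Embeddings.card, nsmul_eq_mul,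
      ← mul_sum]
  have hge : (K + 1) * K * Real.log (Ideal.absNorm J) ≤
      ∑ i : Fin (K + 1), ∑ j : Fin (K + 1), ∑ τ : L →+* ℂ,
      Real.log ‖(τ (y : L)) ^ (i : ℕ) - (τ (y : L)) ^ (j : ℕ)‖ := by
    have h1 : ∀ i : Fin (K + 1), (K : ℝ) * Real.log (Ideal.absNorm J) ≤
        ∑ j : Fin (K + 1), ∑ τ : L →+* ℂ,
        Real.log ‖(τ (y : L)) ^ (i : ℕ) - (τ (y : L)) ^ (j : ℕ)‖ := by
      intro i
      rw [← Finset.add_sum_erase _ _ (mem_univ i)]
      have h2 : ∑ τ : L →+* ℂ,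
          Real.log ‖(τ (y : L)) ^ (i : ℕ) - (τ (y : L)) ^ (i : ℕ)‖ = 0 := by
        simp
      rw [h2, zero_add]
      calc (K : ℝ) * Real.log (Ideal.absNorm J) =
          ∑ _j ∈ univ.erase i, Real.log (Ideal.absNorm J) := by
            rw [sum_const, card_erase_of_mem (mem_univ i), card_univ, Fintype.card_fin,
              Nat.add_sub_cancel, nsmul_eq_mul]
        _ ≤ _ := sum_le_sum fun j hj => hlow i j (Finset.ne_of_mem_erase hj).symm
    calc (K + 1) * K * Real.log (Ideal.absNorm J) =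
        ∑ _i : Fin (K + 1), (K : ℝ) * Real.log (Ideal.absNorm J) := by
          rw [sum_const, card_univ, Fintype.card_fin, nsmul_eq_mul]
          push_cast
          ring
      _ ≤ _ := sum_le_sum fun i _ => h1 i
  have hfin := hge.trans hsum
  have hK1 : (0 : ℝ) < K + 1 := by linarith
  have h1 : (K + 1) * (K * Real.log (Ideal.absNorm J)) ≤
      (K + 1) * (D * Real.log (K + 1) + K ^ 2 * H) := by linarith
  exact le_of_mul_le_mul_left h1 hK1

end Pool.Agent.U189.LV
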