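import Pool.Agent.U189.LV.Basic

/-!
# An eigenvalue of an integral matrix in an extension of the number field
-/

set_option autoImplicit false

open Finset Polynomial Module NumberField

namespace Pool.Agent.U189.LV

open Pool.Agent.H225R3.Marg

/-- **An eigenvalue which is not a root of unity**, as an integer `y` of an extension `L` of degree
at most `n` of `k`. -/
theorem extract {k : Type} [Field k] [NumberField k] {n : ℕ} (A : Matrix (Fin n) (Fin n) (𝓞 k))
    (hA : IsUnit A) (hnil : ∀ N : ℕ, 0 < N → ¬ IsNilpotent (A ^ N - 1)) :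
    ∃ (L : Type) (_ : Field L) (_ : NumberField L) (_ : Algebra k L) (y : 𝓞 L),
      IsUnit y ∧ (∀ m : ℕ, 0 < m → y ^ m ≠ 1) ∧ finrank k L ≤ n ∧
      (∀ (I : Ideal (𝓞 k)) (e : ℕ), (∀ i j, (A ^ e - 1) i j ∈ I) →
        y ^ e - 1 ∈ I.map (algebraMap (𝓞 k) (𝓞 L))) ∧
      ∀ τ : L →+* ℂ,
        ((emb (τ.comp (algebraMap k L))).mapMatrix A).charpoly.IsRoot (τ (y : L)) := by
  classical
  -- a root which is not a root of unity
  set f : 𝓞 k →+* AlgebraicClosure k :=
    (algebraMap k (AlgebraicClosure k)).comp (algebraMap (𝓞 k) k) with hf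
  have hfinj : Function.Injective f :=
    (algebraMap k (AlgebraicClosure k)).injective.comp
      (FaithfulSMul.algebraMap_injective (𝓞 k) k)
  obtain ⟨l, hl, hlN⟩ : ∃ l, (A.charpoly.map f).IsRoot l ∧ ∀ N : ℕ, 0 < N → l ^ N ≠ 1 := by
    by_contra hcon
    push Not at hcon
    obtain ⟨N, hN, h⟩ := nilp_of_roots f hfinj A hcon
    exact hnil N hN h
  have hspec : l ∈ spectrum (AlgebraicClosure k) (f.mapMatrix A) := by
    rw [Matrix.mem_spectrum_iff_isRoot_charpoly]
    have : (f.mapMatrix A).charpoly = A.charpoly.map f := by rw [← Matrix.charpoly_map]; rfl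
    rw [this]
    exact hl
  have hl0 : l ≠ 0 := by
    rintro rfl
    exact (spectrum.zero_notMem_iff _).mpr (hA.map f.mapMatrix) hspec
  have hl1 : ∀ e : ℕ, ((A ^ e - 1).charpoly.map f).IsRoot (l ^ e - 1) := by
    intro e
    have h1 : f.mapMatrix (A ^ e - 1) = aeval (f.mapMatrix A) (X ^ e - 1 : (AlgebraicClosure k)[X]) := by
      rw [map_sub, map_one, map_pow]
      simp
    have h2 := spectrum.subset_polynomial_aeval (f.mapMatrix A)
      (X ^ e - 1 : (AlgebraicClosure k)[X]) ⟨l, hspec, rfl⟩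
    rw [← h1, Matrix.mem_spectrum_iff_isRoot_charpoly] at h2
    have h3 : (f.mapMatrix (A ^ e - 1)).charpoly = (A ^ e - 1).charpoly.map f := by
      rw [← Matrix.charpoly_map]; rfl
    rw [h3] at h2
    simpa using h2
  -- the inverse
  obtain ⟨B, hB⟩ : ∃ B : Matrix (Fin n) (Fin n) (𝓞 k), A * B = 1 := by
    obtain ⟨u, hu⟩ := hA
    exact ⟨(u⁻¹ : (Matrix (Fin n) (Fin n) (𝓞 k))ˣ).1, by rw [← hu]; exact u.mul_inv⟩
  have hlinv : (B.charpoly.map f).IsRoot l⁻¹ := by
    have h1 : (f.mapMatrix B) = (f.mapMatrix A)⁻¹ := by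
      symm
      apply Matrix.inv_eq_right_inv
      rw [← map_mul, hB, map_one]
    have h2 : l⁻¹ ∈ spectrum (AlgebraicClosure k) (f.mapMatrix B) := by
      obtain ⟨u, hu⟩ := hA.map f.mapMatrix
      have h3 : ((u⁻¹ : (Matrix (Fin n) (Fin n) (AlgebraicClosure k))ˣ) :
          Matrix (Fin n) (Fin n) (AlgebraicClosure k)) = f.mapMatrix B := by
        rw [h1, ← hu]
        exact Matrix.coe_units_inv u
      have h4 : l ∈ spectrum (AlgebraicClosure k)
          ((u : (Matrix (Fin n) (Fin n) (AlgebraicClosure k))ˣ) :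
            Matrix (Fin n) (Fin n) (AlgebraicClosure k)) := by rw [hu]; exact hspec
      have h5 := (spectrum.inv_mem_iff (r := Units.mk0 l hl0) (a := u)).1 h4
      rw [h3] at h5
      simpa using h5
    rw [Matrix.mem_spectrum_iff_isRoot_charpoly] at h2
    have : (f.mapMatrix B).charpoly = B.charpoly.map f := by rw [← Matrix.charpoly_map]; rfl
    rw [← this]
    exact h2
  -- the field
  have hlint : IsIntegral k l := Algebra.IsIntegral.isIntegral l
  let L := IntermediateField.adjoin k {l}
  haveI : FiniteDimensional k L := IntermediateField.adjoin.finiteDimensional hlint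
  haveI : CharZero L := charZero_of_injective_algebraMap (algebraMap k L).injective
  haveI : NumberField L := NumberField.of_module_finite k L
  let x : L := ⟨l, IntermediateField.mem_adjoin_simple_self k l⟩
  have hxl : algebraMap L (AlgebraicClosure k) x = l := rfl
  set g : 𝓞 k →+* L := (algebraMap k L).comp (algebraMap (𝓞 k) k) with hg
  have hgf : (algebraMap L (AlgebraicClosure k)).comp g = f := by
    rw [hg, hf, ← RingHom.comp_assoc]
    rfl
  have hxroot : ∀ (p : (𝓞 k)[X]) (w : L), (p.map f).IsRoot (algebraMap L (AlgebraicClosure k) w) →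
      eval₂ g w p = 0 := by
    intro p w hp
    apply (algebraMap L (AlgebraicClosure k)).injective
    rw [map_zero, hom_eval₂, hgf]
    rw [IsRoot, eval_map] at hp
    exact hp
  have hx0 : eval₂ g x A.charpoly = 0 := hxroot _ x (by rw [hxl]; exact hl)
  have hy0 : ∀ e : ℕ, eval₂ g (x ^ e - 1) (A ^ e - 1).charpoly = 0 := fun e =>
    hxroot _ (x ^ e - 1) (by rw [map_sub, map_pow, hxl, map_one]; exact hl1 e)
  haveI : IsScalarTower ℤ (𝓞 k) L := IsScalarTower.of_algebraMap_eq' (RingHom.ext_int _ _)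
  have hint : ∀ (C : Matrix (Fin n) (Fin n) (𝓞 k)) (w : L), eval₂ g w C.charpoly = 0 →
      IsIntegral ℤ w := by
    intro C w hw
    have h1 : IsIntegral (𝓞 k) w := by
      refine ⟨C.charpoly, C.charpoly_monic, ?_⟩
      have : algebraMap (𝓞 k) L = g := rfl
      rw [this]
      exact hw
    exact isIntegral_trans w h1
  have hxint : IsIntegral ℤ x := hint A x hx0
  have hxint' : IsIntegral ℤ x⁻¹ := hint B x⁻¹ (hxroot _ x⁻¹ (by rw [map_inv₀, hxl]; exact hlinv))
  have hxne : x ≠ 0 := by
    intro h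
    apply hl0
    rw [← hxl, h, map_zero]
  have hxroot' : ∀ N : ℕ, 0 < N → x ^ N ≠ 1 := by
    intro N hN h
    apply hlN N hN
    rw [← hxl, ← map_pow, h, map_one]
  have hdeg : finrank k L ≤ n := by
    have h1 : finrank k L = (minpoly k l).natDegree := IntermediateField.adjoin.finrank hlint
    rw [h1]
    have h2 : (A.charpoly.map (algebraMap (𝓞 k) k)).Monic := A.charpoly_monic.map _
    have h3 : aeval l (A.charpoly.map (algebraMap (𝓞 k) k)) = 0 := by
      rw [aeval_def, eval₂_map]
      rw [IsRoot, eval_map] at hl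
      exact hl
    refine (natDegree_le_of_dvd (minpoly.dvd k l h3) h2.ne_zero).trans ?_
    rw [A.charpoly_monic.natDegree_map, Matrix.charpoly_natDegree_eq_dim, Fintype.card_fin]
  have hτroot : ∀ τ : L →+* ℂ,
      ((emb (τ.comp (algebraMap k L))).mapMatrix A).charpoly.IsRoot (τ x) := by
    intro τ
    have h1 : ((emb (τ.comp (algebraMap k L))).mapMatrix A).charpoly =
        A.charpoly.map (emb (τ.comp (algebraMap k L))) := by rw [← Matrix.charpoly_map]; rfl
    rw [h1, IsRoot, eval_map]
    have h2 : emb (τ.comp (algebraMap k L)) = τ.comp g := rfl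
    rw [h2, ← hom_eval₂, hx0, map_zero]
  -- integral version
  let a : 𝓞 L := ⟨x, hxint⟩
  let a' : 𝓞 L := ⟨x⁻¹, hxint'⟩
  refine ⟨L, inferInstance, inferInstance, inferInstance, a, ?_, ?_, hdeg, ?_, hτroot⟩
  · refine IsUnit.of_mul_eq_one a' ?_
    apply RingOfIntegers.ext
    exact mul_inv_cancel₀ hxne
  · intro m hm h
    apply hxroot' m hm
    have h2 : algebraMap (𝓞 L) L (a ^ m) = algebraMap (𝓞 L) L 1 := congrArg _ h
    rw [map_pow, map_one] at h2
    exact h2
  · intro I e hcong
    rcases Nat.eq_zero_or_pos n with h0 | h0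
    · exfalso
      subst h0
      have : A.charpoly = 1 := by
        rw [Matrix.charpoly, Matrix.det_isEmpty]
      rw [this] at hl
      simp at hl
    refine mem_map_of_root I (A ^ e - 1).charpoly (A ^ e - 1).charpoly_monic n
      (by rw [Matrix.charpoly_natDegree_eq_dim, Fintype.card_fin]) h0 (fun i => ?_) _ ?_
    · have := Matrix.coeff_charpoly_mem_ideal_pow hcong i
      rwa [Fintype.card_fin] at this
    · apply FaithfulSMul.algebraMap_injective (𝓞 L) L
      rw [map_zero, ← hy0 e, aeval_def, hom_eval₂]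
      rfl

end Pool.Agent.U189.LV
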